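import Pool.Agent.Run7.h262.TB.Three2

set_option autoImplicit false

open Pool.Agent.W689.Mk

namespace Pool.Agent.Results.MP_df2bd8_gt.DimensionThree

section
variable {Γ E : Type} [Group Γ] [NormedAddCommGroup E] [NormedSpace ℝ E]

/-- Some nonzero vector has its orbit under the linear holonomy in a closed half space `f ≥ 0`.
(Equivalently, the linear holonomy preserves a closed convex cone different from `0` and `E`. For
instance, it preserves a line or a plane.) -/
def HalfSpaceOrbit (hol : Γ →* (E ≃ᵃ[ℝ] E)) : Prop :=
  ∃ (v : E) (f : E →ₗ[ℝ] ℝ), v ≠ 0 ∧ f ≠ 0 ∧ ∀ γ : Γ, 0 ≤ f ((hol γ).linear v)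

/-- The affine holonomy group has a nontrivial virtually solvable normal subgroup (the image of the
normal subgroup `N` of `Γ`, with the solvable image of the subgroup `S` of finite index of `N`). -/
def SolvableNormal (hol : Γ →* (E ≃ᵃ[ℝ] E)) : Prop :=
  ∃ N S : Subgroup Γ, N.Normal ∧ (∃ a ∈ N, hol a ≠ 1) ∧ S ≤ N ∧ S.relIndex N ≠ 0 ∧
    Group.IsSolvable (S.map hol)

/-- The linear holonomy, modulo scalars, is not a faithful representation of the affine holonomy
group with discrete image: nontrivial elements of the holonomy group have, up to scalar factors,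
linear parts arbitrarily close to the identity. -/
def SmallLinearParts (hol : Γ →* (E ≃ᵃ[ℝ] E)) : Prop :=
  ∀ δ > 0, ∃ γ : Γ, hol γ ≠ 1 ∧ ∃ s : ℝ, s ≠ 0 ∧ ∀ v, ‖s • (hol γ).linear v - v‖ ≤ δ * ‖v‖

end

/-- A closed affine `3`-manifold (or orbifold) with parallel volume is given by a connected cover
`X` with its group `Γ`, developing map `dev` and holonomy `hol`; assume that the developing map is
injective, so that the manifold is a quotient `Γ \ Ω` of a domain `Ω` of the affine `3`-space.

The structure is complete (`dev` is a homeomorphism onto `E`) in each of the following three cases: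
some nonzero orbit of the linear holonomy lies in a closed half space, for instance the linear
holonomy is reducible; or the holonomy group has a nontrivial virtually solvable normal subgroup; or
the linear holonomy is not faithful or not discrete modulo scalars. -/
theorem result (X Γ E : Type) [NormedAddCommGroup E] [NormedSpace ℝ E]
    [FiniteDimensional ℝ E] [TopologicalSpace X] [ConnectedSpace X] [Group Γ] [MulAction Γ X]
    (dev : X → E) (hol : Γ →* (E ≃ᵃ[ℝ] E)) (D : AffData X Γ E dev hol)
    (hinj : Function.Injective dev) (hE : Module.finrank ℝ E = 3)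
    (hyp : HalfSpaceOrbit hol ∨ SolvableNormal hol ∨ SmallLinearParts hol) :
    IsHomeomorph dev := by
  have h := Run7.h262.TB.of_data D hinj
  have hc : IsPreconnected (Set.range dev) :=
    isPreconnected_range (D.loc.continuous)
  refine Run7.h262.TB.homeo_of_univ D hinj
    (h.rangeV.dim_three Subtype.val_injective hc hE ?_)
  rcases hyp with ⟨v, f, hv, hf, h1⟩ | h1 | h1
  · refine Or.inl ⟨v, f, hv, hf, ?_⟩
    rintro ⟨_, γ, rfl⟩
    exact h1 γ
  · exact Or.inr (Or.inl (Run7.h262.TB.vs_range h1))
  · refine Or.inr (Or.inr fun δ hδ => ?_)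
    obtain ⟨γ, hγ, s, hs, h2⟩ := h1 δ hδ
    exact ⟨hol.rangeRestrict γ, fun h3 => hγ (congrArg Subtype.val h3), s, hs, h2⟩

end Pool.Agent.Results.MP_df2bd8_gt.DimensionThree
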