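import Pool.Agent.Run7.h675.LorAny

set_option autoImplicit false

open Pool.Agent.W689.Mk Run7.h675

namespace Pool.Agent.Results.MP_df2bd8_gt.DiscompacityOne

section
variable {Γ E : Type} [Group Γ] [NormedAddCommGroup E] [NormedSpace ℝ E]

/-- The subspace `S` is invariant under the linear parts of the holonomy of the subgroup `H`. -/
def Invariant (hol : Γ →* (E ≃ᵃ[ℝ] E)) (H : Subgroup Γ) (S : Submodule ℝ E) : Prop :=
  ∀ γ ∈ H, ∀ v ∈ S, (hol γ).linear v ∈ S

/-- The linear holonomy of `H` is uniformly bounded on the quotient `T / S`: the class of the image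
of `v` has a representative of norm at most `C * ‖v‖`. -/
def BoundedOn (hol : Γ →* (E ≃ᵃ[ℝ] E)) (H : Subgroup Γ) (S T : Submodule ℝ E) : Prop :=
  ∃ C : ℝ, ∀ γ ∈ H, ∀ v ∈ T, ∃ w ∈ T, ‖w‖ ≤ C * ‖v‖ ∧ (hol γ).linear v - w ∈ S

/-- There is a flag `W = S 0 ⊆ S 1 ⊆ … ⊆ S m = E` of subspaces which are invariant under the linear
holonomy of `H`, which is uniformly bounded on each quotient `S (i + 1) / S i`. -/
def BoundedAbove (hol : Γ →* (E ≃ᵃ[ℝ] E)) (H : Subgroup Γ) (W : Submodule ℝ E) : Prop :=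
  ∃ (S : ℕ → Submodule ℝ E) (m : ℕ), S 0 = W ∧ S m = ⊤ ∧ (∀ i < m, S i ≤ S (i + 1)) ∧
    (∀ i ≤ m, Invariant hol H (S i)) ∧ ∀ i < m, BoundedOn hol H (S i) (S (i + 1))

/-- `H` acts on `E / W` through a solvable group: some derived subgroup of `H` acts trivially. -/
def SolvableAbove (hol : Γ →* (E ≃ᵃ[ℝ] E)) (H : Subgroup Γ) (W : Submodule ℝ E) : Prop :=
  ∃ a : ℕ, ∀ γ ∈ derivedSeries H a, ∀ v : E, (hol γ).linear v - v ∈ W

/-- Discompacity at most one on `W`: every element of the linear holonomy of `H` is Lipschitz, with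
a uniform constant `C`, on the kernel in `W` of some linear form. -/
def Discompacity (hol : Γ →* (E ≃ᵃ[ℝ] E)) (H : Subgroup Γ) (W : Submodule ℝ E) : Prop :=
  ∃ C : ℝ, ∀ γ ∈ H, ∃ l : E →L[ℝ] ℝ, ∀ v ∈ W, l v = 0 → ‖(hol γ).linear v‖ ≤ C * ‖v‖

/-- There is a symmetric bilinear form of Lorentz signature on `W`, which is invariant under the
linear holonomy of `H`. -/
def Lorentz (hol : Γ →* (E ≃ᵃ[ℝ] E)) (H : Subgroup Γ) (W : Submodule ℝ E) : Prop :=
  ∃ B : E →L[ℝ] E →L[ℝ] ℝ, (∀ v ∈ W, ∀ w ∈ W, B v w = B w v) ∧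
    (∃ e ∈ W, B e e < 0 ∧ ∀ v ∈ W, v ≠ 0 → B v e = 0 → 0 < B v v) ∧
    ∀ γ ∈ H, ∀ v ∈ W, ∀ w ∈ W, B ((hol γ).linear v) ((hol γ).linear w) = B v w

/-- The linear holonomy of `H` preserves a flag `0 = S 0 ⊆ S 1 ⊆ … ⊆ S m = E` and acts on its
quotients by uniformly quasi-conformal maps: with one constant `C`, every `γ` in `H` multiplies the
quotient norm of `S (i + 1) / S i` by a factor `c > 0`, up to the constant `C`. (This is so for all
subgroups of amenable Lie groups, up to finite index.) -/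
def ConformalFlag (hol : Γ →* (E ≃ᵃ[ℝ] E)) (H : Subgroup Γ) : Prop :=
  ∃ (S : ℕ → Submodule ℝ E) (m : ℕ), S 0 = ⊥ ∧ S m = ⊤ ∧ (∀ i < m, S i ≤ S (i + 1)) ∧
    (∀ i ≤ m, ∀ γ ∈ H, ∀ v ∈ S i, (hol γ).linear v ∈ S i) ∧
    ∃ C : ℝ, ∀ i < m, ∀ γ ∈ H, ∃ c : ℝ, 0 < c ∧ ∀ v ∈ S (i + 1),
      (∃ w ∈ S i, ‖(hol γ).linear v - w‖ ≤ C * c * ‖v‖) ∧
      ∃ w ∈ S i, ‖(hol γ⁻¹).linear v - w‖ ≤ C * c⁻¹ * ‖v‖

/-- Let `l` be a linear form which does not vanish on `W` and whose images under the linear holonomy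
of `H`, restricted to `W`, come arbitrarily close to zero. Then each subgroup of `H` which preserves
the restriction of `l` to `W` up to scalars acts on `W` through a solvable group. -/
def SolvableStabilisers (hol : Γ →* (E ≃ᵃ[ℝ] E)) (H : Subgroup Γ) (W : Submodule ℝ E) : Prop :=
  ∀ l : E →L[ℝ] ℝ, (∃ u ∈ W, l u ≠ 0) →
    (∀ ε : ℝ, 0 < ε → ∃ γ ∈ H, ∀ u ∈ W, ‖u‖ ≤ 1 → |l ((hol γ).linear u)| ≤ ε) →
    ∀ K : Subgroup Γ, K ≤ H → (∀ γ ∈ K, ∃ c : ℝ, ∀ u ∈ W, l ((hol γ).linear u) = c * l u) →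
      ∃ n : ℕ, ∀ γ ∈ derivedSeries K n, ∀ v ∈ W, (hol γ).linear v = v

end

/-- Let a closed affine manifold (or orbifold) with parallel volume be given by a connected cover
`X` with its group `Γ`, developing map `dev` and holonomy `hol`, and let `H` be a subgroup of finite
index of `Γ`. Let `W` be a subspace of `E` which starts a flag of subspaces invariant under the
linear holonomy of `H`, up to `E`, on whose quotients this linear holonomy is bounded. Suppose that
the linear holonomy of `H` has discompacity at most one on `W`; this is automatic if `W` has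
dimension two, or an invariant form of Lorentz signature. Then the developing map is injective, and
its image is convex in the directions of `W`. The developing map is a homeomorphism, that is, the
structure is complete, if moreover the linear holonomy of `H` preserves some flag with
quasi-conformal quotients, or if `H` acts on `E / W` through a solvable group and `W` has dimension
two, or an invariant form of Lorentz signature, or solvable stabilisers of contracted linear forms.

In particular (last part), the structure is complete if `E` has dimension `k + 2` and there are `k`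
linearly independent linear forms preserved up to sign by the linear holonomy of `H`, that is, `k`
independent parallel one-forms on a finite cover (one, in dimension three). -/
theorem result (X Γ E : Type) [NormedAddCommGroup E] [NormedSpace ℝ E]
    [FiniteDimensional ℝ E] [TopologicalSpace X] [T2Space X] [SecondCountableTopology X]
    [ConnectedSpace X] [Group Γ] [MulAction Γ X] (dev : X → E) (hol : Γ →* (E ≃ᵃ[ℝ] E))
    (D : AffData X Γ E dev hol) (H : Subgroup Γ) (hH : H.FiniteIndex) :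
    (∀ W : Submodule ℝ E, BoundedAbove hol H W →
      (Discompacity hol H W ∨ Module.finrank ℝ W = 2 ∨ Lorentz hol H W) →
      Function.Injective dev ∧
      (∀ p ∈ Set.range dev, ∀ q ∈ Set.range dev, q - p ∈ W → segment ℝ p q ⊆ Set.range dev) ∧
      (ConformalFlag hol H → IsHomeomorph dev) ∧
      (SolvableAbove hol H W →
        (Module.finrank ℝ W = 2 ∨ Lorentz hol H W ∨ SolvableStabilisers hol H W) →
        IsHomeomorph dev)) ∧
    (∀ (k : ℕ) (f : Fin k → (E →ₗ[ℝ] ℝ)), Module.finrank ℝ E = k + 2 → LinearIndependent ℝ f →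
      (∀ γ ∈ H, ∀ i, (∀ v, f i ((hol γ).linear v) = f i v) ∨
        (∀ v, f i ((hol γ).linear v) = - f i v)) → IsHomeomorph dev) := by
  have D' := Pool.Agent.Y449.MK.restrict D H hH
  refine ⟨?_, ?_⟩
  · intro W hW hor
    obtain ⟨S, m, h0, hm, hle, hinv, hbd⟩ := hW
    have F : BFlag (hol.comp H.subtype) W S m := by
      refine ⟨h0, hm, hle, fun i hi γ v hv => hinv i hi γ γ.2 v hv, fun i hi => ?_⟩
      obtain ⟨C, hC⟩ := hbd i hi
      refine ⟨C, fun γ w hw => ?_⟩
      obtain ⟨v, hv, hvn, hvS⟩ := hC (γ⁻¹ : H) (γ⁻¹ : H).2 w hw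
      refine ⟨v, hv, hvn, ?_⟩
      have h1 : lin (hol.comp H.subtype) γ (lin (hol.comp H.subtype) γ⁻¹ w - v) ∈ S i :=
        hinv i hi.le γ γ.2 _ hvS
      rw [lin_sub, lin_apply_inv] at h1
      rw [← neg_sub]
      exact (S i).neg_mem h1
    have hlor : Lorentz hol H W → ∃ (B : E →L[ℝ] E →L[ℝ] ℝ) (e : E),
        Lor (hol.comp H.subtype) W B e := by
      rintro ⟨B, hB1, ⟨e, he, hBe, hBp⟩, hB3⟩
      exact ⟨B, e, hB1, he, hBe, hBp, fun γ v hv w hw => hB3 γ γ.2 v hv w hw⟩
    have hd : Disc1 (hol.comp H.subtype) W := by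
      rcases hor with ⟨C, hC⟩ | h | h
      · exact ⟨C, fun γ => hC γ γ.2⟩
      · exact disc_plane h F.invW (F.dt D')
      · obtain ⟨B, e, L⟩ := hlor h
        exact L.disc F.invW
    have hinj : Function.Injective dev := leaf_injective D' hd (F.con D')
    refine ⟨hinj, fun p hp q hq hpq => ?_, ?_, ?_⟩
    · rintro _ ⟨a, b, ha, hb, hab, rfl⟩
      have h1 := leaf_convex D' hd (F.con D') p hp q hq hpq b ⟨hb, by linarith⟩
      have h2 : a = 1 - b := by linarith
      have h3 : a • p + b • q = p + b • (q - p) := by rw [h2]; module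
      rwa [h3]
    · rintro ⟨S', m', hS'⟩
      exact (Pool.Agent.N520.RO.quasi X Γ E dev hol D hinj H hH S' m' hS').1
    · rintro ⟨a, ha⟩ (h | h | hr)
      · exact F.plane D' h ha
      · obtain ⟨B, e, L⟩ := hlor h
        exact F.lorAny D' L ha
      · refine disc_complete D' F.invW hd (F.con D') ha ?_
        intro l hl hc K hK
        obtain ⟨n, hn⟩ := hr l hl (fun ε hε => by
          obtain ⟨γ, hγ⟩ := hc ε hε
          exact ⟨γ, γ.2, hγ⟩) (K.map H.subtype) (by
            rintro _ ⟨γ, -, rfl⟩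
            exact γ.2) (by
            rintro _ ⟨γ, hγ, rfl⟩
            exact hK γ hγ)
        refine ⟨n, ?_⟩
        rintro _ ⟨γ, hγ, rfl⟩ v hv
        let φ : K →* (K.map H.subtype) := (H.subtype.comp K.subtype).codRestrict
          (K.map H.subtype) (fun γ => ⟨γ.1, γ.2, rfl⟩)
        have h1 := map_derivedSeries_le_derivedSeries φ n ⟨γ, hγ, rfl⟩
        exact hn (φ γ) h1 v hv
  · intro k f hk hf hs
    obtain ⟨W, hW, ⟨S, F⟩, ha⟩ := forms_flag (hol := hol.comp H.subtype) hk hf
      fun γ i => hs γ γ.2 i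
    exact F.plane D' hW ha

end Pool.Agent.Results.MP_df2bd8_gt.DiscompacityOne
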