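import Pool.Agent.Run7.h675.Rational

set_option autoImplicit false

open Pool.Agent.W689.Mk Run7.h675

namespace Pool.Agent.Results.MP_df2bd8_gt.RationalFlags

section
variable {Γ E : Type} [Group Γ] [NormedAddCommGroup E] [NormedSpace ℝ E]

/-- `0 = S 0 ⊆ S 1 ⊆ … ⊆ S m = E` is a flag which is invariant under the linear parts of the
holonomy of the subgroup `H`. -/
def InvariantFlag (hol : Γ →* (E ≃ᵃ[ℝ] E)) (H : Subgroup Γ) (S : ℕ → Submodule ℝ E) (m : ℕ) :
    Prop :=
  S 0 = ⊥ ∧ S m = ⊤ ∧ (∀ i < m, S i ≤ S (i + 1)) ∧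
    ∀ i ≤ m, ∀ γ ∈ H, ∀ v ∈ S i, (hol γ).linear v ∈ S i

/-- The linear holonomy of every element of `H` is `1` or `-1` on the quotient `B / A`. -/
def SignOn (hol : Γ →* (E ≃ᵃ[ℝ] E)) (H : Subgroup Γ) (A B : Submodule ℝ E) : Prop :=
  ∀ γ ∈ H, (∀ v ∈ B, (hol γ).linear v - v ∈ A) ∨ (∀ v ∈ B, (hol γ).linear v + v ∈ A)

/-- The images of the covector `f` under the linear holonomy of `H`, restricted to `B`, have norms
bounded from below. -/
def AwayFromZero (hol : Γ →* (E ≃ᵃ[ℝ] E)) (H : Subgroup Γ) (B : Submodule ℝ E) (f : E →L[ℝ] ℝ) :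
    Prop :=
  ∃ δ : ℝ, 0 < δ ∧ ∀ γ ∈ H, ∃ v ∈ B, ‖v‖ ≤ 1 ∧ δ ≤ |f ((hol γ).linear v)|

/-- The covectors which vanish on `A` and whose images stay away from zero on `B` are dense among
all covectors which vanish on `A`. -/
def DenselyAway (hol : Γ →* (E ≃ᵃ[ℝ] E)) (H : Subgroup Γ) (A B : Submodule ℝ E) : Prop :=
  ∀ f : E →L[ℝ] ℝ, (∀ v ∈ A, f v = 0) → ∀ ε : ℝ, 0 < ε →
    ∃ g : E →L[ℝ] ℝ, (∀ v ∈ A, g v = 0) ∧ AwayFromZero hol H B g ∧ ‖g - f‖ < ε

end

section
variable {E ι : Type} [NormedAddCommGroup E] [NormedSpace ℝ E]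

/-- `v` is a vector of the lattice spanned by the basis `b`. -/
def InLattice (b : Module.Basis ι ℝ E) (v : E) : Prop := ∀ i, ∃ z : ℤ, b.repr v i = z

/-- `S` is a rational subspace: it is spanned by vectors of the lattice. -/
def Rational (b : Module.Basis ι ℝ E) (S : Submodule ℝ E) : Prop :=
  Submodule.span ℝ {v | InLattice b v ∧ v ∈ S} = S

end

/-- Let a closed affine manifold (or orbifold) with parallel volume be given by a connected cover
`X` with its group `Γ`, developing map `dev` and holonomy `hol`, and let `H` be a subgroup of finite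
index of `Γ`. The structure is complete (the developing map is a homeomorphism) in each of the
following cases.

(1) The linear holonomy of `H` preserves a flag and is `± 1` on all quotients of the flag, except
for one quotient `S (k + 1) / S k` of dimension two, on which the covectors with images bounded away
from zero are dense.
(2) The linear holonomy of `H` preserves a lattice of `E` and a flag of rational subspaces, with
quotients of dimension at most one, except for one of dimension at most two.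
(3) `E` has dimension three, and the linear holonomy of `H` preserves a lattice and a rational line
or a rational plane. -/
theorem result (X Γ E : Type) [NormedAddCommGroup E] [NormedSpace ℝ E]
    [FiniteDimensional ℝ E] [TopologicalSpace X] [T2Space X] [SecondCountableTopology X]
    [ConnectedSpace X] [Group Γ] [MulAction Γ X] (dev : X → E) (hol : Γ →* (E ≃ᵃ[ℝ] E))
    (D : AffData X Γ E dev hol) (H : Subgroup Γ) (hH : H.FiniteIndex) :
    (∀ (S : ℕ → Submodule ℝ E) (m k : ℕ), InvariantFlag hol H S m → k < m →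
      (∀ i < m, i ≠ k → SignOn hol H (S i) (S (i + 1))) →
      Module.finrank ℝ (S (k + 1)) = Module.finrank ℝ (S k) + 2 →
      DenselyAway hol H (S k) (S (k + 1)) → IsHomeomorph dev) ∧
    (∀ (ι : Type) [Fintype ι] (b : Module.Basis ι ℝ E) (S : ℕ → Submodule ℝ E) (m k : ℕ),
      (∀ γ ∈ H, ∀ v, InLattice b v → InLattice b ((hol γ).linear v)) →
      InvariantFlag hol H S m → (∀ i ≤ m, Rational b (S i)) →
      (∀ i < m, i ≠ k → Module.finrank ℝ (S (i + 1)) ≤ Module.finrank ℝ (S i) + 1) →
      Module.finrank ℝ (S (k + 1)) ≤ Module.finrank ℝ (S k) + 2 → IsHomeomorph dev) ∧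
    (∀ (b : Module.Basis (Fin 3) ℝ E) (W : Submodule ℝ E),
      (∀ γ ∈ H, ∀ v, InLattice b v → InLattice b ((hol γ).linear v)) →
      W ≠ ⊥ → W ≠ ⊤ → Rational b W → (∀ γ ∈ H, ∀ v ∈ W, (hol γ).linear v ∈ W) →
      IsHomeomorph dev) := by
  have D' := Pool.Agent.Y449.MK.restrict D H hH
  have part2 : ∀ (ι : Type) [Fintype ι] (b : Module.Basis ι ℝ E) (S : ℕ → Submodule ℝ E)
      (m k : ℕ), (∀ γ ∈ H, ∀ v, InLattice b v → InLattice b ((hol γ).linear v)) →
      InvariantFlag hol H S m → (∀ i ≤ m, Rational b (S i)) →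
      (∀ i < m, i ≠ k → Module.finrank ℝ (S (i + 1)) ≤ Module.finrank ℝ (S i) + 1) →
      Module.finrank ℝ (S (k + 1)) ≤ Module.finrank ℝ (S k) + 2 → IsHomeomorph dev := by
    intro ι _ b S m k hint hS hrat hr1 hr2
    obtain ⟨h0, hm, hle, hinv⟩ := hS
    exact rational_complete (b := b) D' (fun γ v hv => hint γ γ.2 v hv) h0 hm hle
      (fun i hi γ v hv => hinv i hi γ γ.2 v hv) (fun i hi => (hrat i hi).ge) hr1 hr2
  refine ⟨?_, part2, ?_⟩
  · intro S m k hS hk hsign hrank hdense
    obtain ⟨h0, hm, hle, hinv⟩ := hS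
    refine QFlag.complete D' (S := S) (m := m) (k := k) ?_
    refine ⟨h0, hm, hk, hle, fun i hi γ v hv => hinv i hi γ γ.2 v hv, ?_, hrank, ?_⟩
    · intro i hi hik γ
      rcases hsign i hi hik γ γ.2 with h | h
      · exact ⟨1, Or.inl rfl, fun v hv => by rw [one_smul]; exact h v hv⟩
      · refine ⟨-1, Or.inr rfl, fun v hv => ?_⟩
        rw [neg_one_smul, sub_neg_eq_add]
        exact h v hv
    · intro f hf ε hε
      obtain ⟨g, hg, ⟨δ, hδ, hgδ⟩, hgf⟩ := hdense f hf ε hε
      refine ⟨g, hg, ⟨1 / δ, fun γ => ?_⟩, hgf⟩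
      obtain ⟨v, hv, hv1, hvδ⟩ := hgδ γ γ.2
      have hne : g ((hol γ).linear v) ≠ 0 := by
        intro h0
        rw [h0, abs_zero] at hvδ
        linarith
      refine ⟨(g ((hol γ).linear v))⁻¹ • v, ?_, ?_, ?_⟩
      · rw [norm_smul, norm_inv, Real.norm_eq_abs, one_div]
        have h1 : |g ((hol γ).linear v)|⁻¹ ≤ δ⁻¹ := inv_anti₀ hδ hvδ
        calc |g ((hol γ).linear v)|⁻¹ * ‖v‖ ≤ δ⁻¹ * 1 :=
              mul_le_mul h1 hv1 (norm_nonneg _) (inv_nonneg.2 hδ.le)
          _ = δ⁻¹ := mul_one _
      · show (hol γ).linear ((g ((hol γ).linear v))⁻¹ • v) ∈ S (k + 1)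
        rw [map_smul]
        exact (S (k + 1)).smul_mem _ (hinv (k + 1) hk γ γ.2 v hv)
      · show g ((hol γ).linear ((g ((hol γ).linear v))⁻¹ • v)) = 1
        rw [map_smul, map_smul, smul_eq_mul, inv_mul_cancel₀ hne]
  · intro b W hint hW0 hW1 hrat hinv
    have h3 : Module.finrank ℝ E = 3 := by
      rw [Module.finrank_eq_card_basis b, Fintype.card_fin]
    have hpos : 0 < Module.finrank ℝ W := by
      have : Nontrivial W := Submodule.nontrivial_iff_ne_bot.2 hW0
      exact Module.finrank_pos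
    have hlt : Module.finrank ℝ W < Module.finrank ℝ E := Submodule.finrank_lt hW1
    let S : ℕ → Submodule ℝ E := fun i => if i = 0 then ⊥ else if i = 1 then W else ⊤
    have S0 : S 0 = ⊥ := rfl
    have S1 : S 1 = W := rfl
    have S2 : S 2 = ⊤ := rfl
    have e0 : Module.finrank ℝ (S 0) = 0 := by rw [S0]; exact finrank_bot ℝ E
    have e1 : Module.finrank ℝ (S 1) = Module.finrank ℝ W := by rw [S1]
    have e2 : Module.finrank ℝ (S 2) = 3 := by rw [S2, finrank_top, h3]
    refine part2 (Fin 3) b S 2 (if Module.finrank ℝ W = 2 then 0 else 1) hint ?_ ?_ ?_ ?_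
    · refine ⟨S0, S2, ?_, ?_⟩
      · intro i hi
        interval_cases i
        · rw [S0]; exact bot_le
        · rw [S2]; exact le_top
      · intro i hi γ hγ v hv
        interval_cases i
        · rw [S0, Submodule.mem_bot] at hv ⊢
          rw [hv, map_zero]
        · exact hinv γ hγ v hv
        · rw [S2]; exact Submodule.mem_top
    · intro i hi
      interval_cases i
      · show Submodule.span ℝ {v | InLattice b v ∧ v ∈ (⊥ : Submodule ℝ E)} = ⊥
        rw [eq_bot_iff, Submodule.span_le]
        rintro v ⟨-, hv⟩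
        exact hv
      · exact hrat
      · show Submodule.span ℝ {v | InLattice b v ∧ v ∈ (⊤ : Submodule ℝ E)} = ⊤
        refine eq_top_iff.2 (b.span_eq.ge.trans (Submodule.span_le.2 ?_))
        rintro _ ⟨i, rfl⟩
        refine Submodule.subset_span ⟨fun j => ?_, Submodule.mem_top⟩
        rw [b.repr_self, Finsupp.single_apply]
        split_ifs
        · exact ⟨1, by norm_num⟩
        · exact ⟨0, by norm_num⟩
    · intro i hi hik
      interval_cases i
      · rw [e0, e1]
        split_ifs at hik with h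
        · exact absurd rfl hik
        · omega
      · rw [e1, e2]
        split_ifs at hik with h
        · omega
        · exact absurd rfl hik
    · by_cases h : Module.finrank ℝ W = 2
      · rw [if_pos h, zero_add, e0, e1]
        omega
      · rw [if_neg h]
        show Module.finrank ℝ (S 2) ≤ Module.finrank ℝ (S 1) + 2
        rw [e1, e2]
        omega

end Pool.Agent.Results.MP_df2bd8_gt.RationalFlags
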