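import Pool.Agent.Run7.h262.TB.CrFin

set_option autoImplicit false

open Pool.Agent.W689.Mk

namespace Pool.Agent.Results.MP_df2bd8_gt.SemisimpleHolonomy

section
variable {Γ E : Type} [Group Γ] [NormedAddCommGroup E] [NormedSpace ℝ E]

/-- the linear holonomy preserves the subspace `W` -/
def Preserved (hol : Γ →* (E ≃ᵃ[ℝ] E)) (W : Submodule ℝ E) : Prop :=
  ∀ γ : Γ, ∀ v ∈ W, (hol γ).linear v ∈ W

/-- The linear holonomy is irreducible on `V' / V`. -/
def IrreducibleOn (hol : Γ →* (E ≃ᵃ[ℝ] E)) (V V' : Submodule ℝ E) : Prop :=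
  ∀ W : Submodule ℝ E, V ≤ W → W ≤ V' → Preserved hol W → W = V ∨ W = V'

/-- The linear holonomy is completely reducible: every preserved subspace has a preserved
complement. -/
def CompletelyReducible (hol : Γ →* (E ≃ᵃ[ℝ] E)) : Prop :=
  ∀ W : Submodule ℝ E, Preserved hol W → ∃ W' : Submodule ℝ E, Preserved hol W' ∧ IsCompl W W'

/-- `0 = S 0 < S 1 < … < S r = E` is a composition series of the linear holonomy. -/
structure CompositionSeries (hol : Γ →* (E ≃ᵃ[ℝ] E)) (S : ℕ → Submodule ℝ E) (r : ℕ) : Prop where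
  bot : S 0 = ⊥
  top : S r = ⊤
  lt : ∀ i < r, S i < S (i + 1)
  inv : ∀ i ≤ r, Preserved hol (S i)
  irr : ∀ i < r, IrreducibleOn hol (S i) (S (i + 1))

/-- For some nonzero vector `v` of `V' / V` and some nonzero linear form `f` on `V' / V`, the form
`f` is nonnegative on the orbit of `v` under the linear holonomy. (If `V' / V` is irreducible: the
linear holonomy preserves a closed convex cone of `V' / V` different from `0` and `V' / V`.) -/
def HalfSpaceOrbit (hol : Γ →* (E ≃ᵃ[ℝ] E)) (V V' : Submodule ℝ E) : Prop :=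
  ∃ (v : E) (f : E →ₗ[ℝ] ℝ), v ∈ V' ∧ v ∉ V ∧ (∀ w ∈ V, f w = 0) ∧ (∃ u ∈ V', f u ≠ 0) ∧
    ∀ γ : Γ, 0 ≤ f ((hol γ).linear v)

/-- `C` is a nonempty open convex cone without the origin, invariant under the linear
representation `σ` of `Γ` -/
structure InvariantCone {q : ℕ} (σ : Γ →* ((Fin q → ℝ) ≃ₗ[ℝ] (Fin q → ℝ)))
    (C : Set (Fin q → ℝ)) : Prop where
  isOpen : IsOpen C
  convex : Convex ℝ C
  nonempty : C.Nonempty
  zero : (0 : Fin q → ℝ) ∉ C
  smul : ∀ t : ℝ, 0 < t → ∀ u ∈ C, t • u ∈ C
  inv : ∀ γ : Γ, ∀ u ∈ C, σ γ u ∈ C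

/-- The linear holonomy of `γ` acts on the quotient `V' / V` as a scalar multiple of a map `g` such
that the norms of `g` and of its inverse are at most `c`. -/
def BoundedOn (hol : Γ →* (E ≃ᵃ[ℝ] E)) (V V' : Submodule ℝ E) (c : ℝ) (γ : Γ) : Prop :=
  ∃ s : ℝ, 0 < s ∧ ∀ v ∈ V', (∃ w ∈ V, ‖s • (hol γ).linear v - w‖ ≤ c * ‖v‖) ∧
    ∃ w ∈ V, ‖s⁻¹ • (hol γ⁻¹).linear v - w‖ ≤ c * ‖v‖

/-- The action of `γ` on `V' / V` is trivial. -/
def TrivialOn (hol : Γ →* (E ≃ᵃ[ℝ] E)) (V V' : Submodule ℝ E) (γ : Γ) : Prop :=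
  ∀ v ∈ V', (hol γ).linear v - v ∈ V

/-- Properness of the action on the product of the projectivised cones `C j`: for compact subsets
`A j` of the `C j`, the elements `γ` of `Γ` which move, for each `j`, some point of `A j` to a
positive multiple of a point of `A j` are bounded modulo scalars on `V' / V`. -/
def ProperOnCones (hol : Γ →* (E ≃ᵃ[ℝ] E)) (V V' : Submodule ℝ E) {p : ℕ}
    {q : Fin p → ℕ} (σ : ∀ j, Γ →* ((Fin (q j) → ℝ) ≃ₗ[ℝ] (Fin (q j) → ℝ)))
    (C : ∀ j, Set (Fin (q j) → ℝ)) : Prop :=
  ∀ A : ∀ j, Set (Fin (q j) → ℝ), (∀ j, IsCompact (A j)) → (∀ j, A j ⊆ C j) →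
    ∃ c : ℝ, ∀ γ : Γ, (∀ j, ∃ u ∈ A j, ∃ t : ℝ, 0 < t ∧ t • σ j γ u ∈ A j) →
      BoundedOn hol V V' c γ

/-- The group of linear transformations of `V' / V` induced by the linear holonomy has linear
representations `σ j` on spaces of dimensions `q j` with invariant open convex cones `C j`, such
that its action on the product of the projectivised cones is proper modulo scalars, and the
dimension `∑ (q j - 1)` of this product is less than the dimension of `V' / V`.

(For instance, `p = 0`: the linear holonomy acts on `V' / V` by similarities for some Euclidean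
norm. Or: the linear holonomy on `V' / V` factors through a representation of a linear group, such
as `SL(m, ℝ)`, with noncompact factors of some dimension, and the `C j` are the cones of positive
definite quadratic forms of these factors; their projectivisations are the symmetric spaces.) -/
def SmallAction (hol : Γ →* (E ≃ᵃ[ℝ] E)) (V V' : Submodule ℝ E) : Prop :=
  ∃ (p : ℕ) (q : Fin p → ℕ) (σ : ∀ j, Γ →* ((Fin (q j) → ℝ) ≃ₗ[ℝ] (Fin (q j) → ℝ)))
    (C : ∀ j, Set (Fin (q j) → ℝ)), (∀ j, InvariantCone (σ j) (C j)) ∧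
    (∀ γ : Γ, TrivialOn hol V V' γ → ∀ j, σ j γ = 1) ∧ ProperOnCones hol V V' σ C ∧
    ∑ j, q j + Module.finrank ℝ V < Module.finrank ℝ V' + p

/-- The linear holonomy is completely reducible and each of its irreducible constituents, with at
most one exception of dimension at most two, has an orbit in a half space or a proper action on
small cones. -/
def SmallConstituents (hol : Γ →* (E ≃ᵃ[ℝ] E)) : Prop :=
  CompletelyReducible hol ∧ ∃ (S : ℕ → Submodule ℝ E) (r i₀ : ℕ), CompositionSeries hol S r ∧
    ∀ i < r, SmallAction hol (S i) (S (i + 1)) ∨ HalfSpaceOrbit hol (S i) (S (i + 1)) ∨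
      (i = i₀ ∧ Module.finrank ℝ (S (i + 1)) ≤ Module.finrank ℝ (S i) + 2)

/-- The affine holonomy group has a nontrivial virtually solvable normal subgroup (the image of the
normal subgroup `N` of `Γ`, with the solvable image of the subgroup `S` of finite index of `N`). -/
def SolvableNormal (hol : Γ →* (E ≃ᵃ[ℝ] E)) : Prop :=
  ∃ N S : Subgroup Γ, N.Normal ∧ (∃ a ∈ N, hol a ≠ 1) ∧ S ≤ N ∧ S.relIndex N ≠ 0 ∧
    Group.IsSolvable (S.map hol)

/-- The linear holonomy, modulo scalars, is not a faithful representation of the affine holonomy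
group with discrete image: nontrivial elements of the holonomy group have, up to scalar factors,
linear parts arbitrarily close to the identity. -/
def SmallLinearParts (hol : Γ →* (E ≃ᵃ[ℝ] E)) : Prop :=
  ∀ δ > 0, ∃ γ : Γ, hol γ ≠ 1 ∧ ∃ s : ℝ, s ≠ 0 ∧ ∀ v, ‖s • (hol γ).linear v - v‖ ≤ δ * ‖v‖

end

/-- A closed affine manifold (or orbifold) with parallel volume is given by a connected cover `X`
with its group `Γ`, developing map `dev` and holonomy `hol`; assume that the developing map is
injective, so that the manifold is a quotient `Γ \ Ω` of a domain `Ω` of the affine space.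

The structure is complete (`dev` is a homeomorphism onto `E`) in each of the following cases.

(1) The linear holonomy is completely reducible, and each irreducible constituent, with at most one
exception of dimension at most two, preserves a closed convex cone different from zero and the whole
space, or acts properly modulo scalars on a product of projectivised convex cones of smaller
dimension than itself.

(2) The linear holonomy is irreducible, and the holonomy group has a nontrivial virtually solvable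
normal subgroup or the linear holonomy is not faithful or not discrete modulo scalars. -/
theorem result (X Γ E : Type) [NormedAddCommGroup E] [NormedSpace ℝ E]
    [FiniteDimensional ℝ E] [TopologicalSpace X] [ConnectedSpace X] [Group Γ] [MulAction Γ X]
    (dev : X → E) (hol : Γ →* (E ≃ᵃ[ℝ] E)) (D : AffData X Γ E dev hol)
    (hinj : Function.Injective dev)
    (hyp : SmallConstituents hol ∨
      (IrreducibleOn hol ⊥ ⊤ ∧ (SolvableNormal hol ∨ SmallLinearParts hol))) :
    IsHomeomorph dev := by
  have h := Run7.h262.TB.of_data D hinj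
  have hc : IsPreconnected (Set.range dev) :=
    isPreconnected_range (D.loc.continuous)
  refine Run7.h262.TB.homeo_of_univ D hinj ?_
  rcases hyp with ⟨hcr, S, r, i₀, hS, hty⟩ | ⟨hirr, hyp⟩
  · refine h.cr hc hcr (S := S) (r := r) (i₀ := i₀) ⟨hS.bot, hS.top, fun i hi => (hS.lt i hi).le,
      hS.inv, hS.irr, fun i hi => ?_⟩
    rcases hty i hi with ⟨p, q, σ, C, hC, h1, h2, h3⟩ | h1 | h1
    · exact Or.inr (Or.inl ⟨p, q, σ, C, fun j => ⟨(hC j).isOpen, (hC j).convex, (hC j).nonempty,
        (hC j).zero, (hC j).smul, (hC j).inv⟩, h1, h2, h3⟩)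
    · exact Or.inr (Or.inr (Or.inl h1))
    · exact Or.inr (Or.inr (Or.inr h1))
  · have hirr' : Run7.h262.TB.Irr hol.range.subtype ⊥ ⊤ := by
      intro W h1 h2 h3
      exact hirr W h1 h2 fun γ v hv => h3 ⟨hol γ, γ, rfl⟩ v hv
    rcases hyp with h1 | h1
    · obtain ⟨N, hN, hne, S, hS, hs⟩ := Run7.h262.TB.vs_range h1
      exact h.rangeV.irr Subtype.val_injective hc hirr'
        (h.rangeV.exists_abelian Subtype.val_injective N hN hne S hS hs)
    · refine h.rangeV.irr_small Subtype.val_injective hc hirr' fun δ hδ => ?_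
      obtain ⟨γ, hγ, s, hs, h2⟩ := h1 δ hδ
      exact ⟨hol.rangeRestrict γ, fun h3 => hγ (congrArg Subtype.val h3), s, hs, h2⟩

end Pool.Agent.Results.MP_df2bd8_gt.SemisimpleHolonomy
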